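import Pool.Agent.N132.Lit.TIConv

/-!
# The density of the algebraic classes in the Tate classes: one integer for all primes

Let `X` be a smooth projective variety (with nonzero cohomology) over a finitely generated subfield
of `ℂ`. On the power `X ^ n` let `r n` be the rank of the group of the algebraic cycles modulo numerical
equivalence, `h n` the dimension of the space of the Hodge classes and, for a prime number `ℓ`, `t n`
the dimension of the space of the `ℓ`-adic Tate classes (of all degrees).

We prove, without any hypothesis on `X`: there is ONE natural number `N ≥ 1` (depending only on `X`)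
such that for EVERY prime number `ℓ` the quotient `t n / r n` converges to `N` or to `∞`, and also
`h n / r n` converges to `N` or to `∞`. For each `ℓ` the limit is `1` if and only if the Tate conjecture at
`ℓ` holds for all powers of `X` (in all codimensions) and homological and numerical equivalence agree
on them. If the limit is finite for ONE prime number `ℓ`, then for all powers of `X`: homological and
numerical equivalence agree, the standard conjecture of Lefschetz type is true, and all `ℓ`-adic Tate
classes are linear combinations of rational classes which are Hodge classes and `ℓ'`-adic Tate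
classes for ALL prime numbers `ℓ'`. If the limit for the Hodge classes is finite then the same
standard conjectures hold and all Hodge classes are `ℓ`-adic Tate classes for all `ℓ`.

In particular, if the Tate conjecture is true for all powers of `X` at one prime number `ℓ` (and
homological and numerical equivalence agree) then for every other prime number `ℓ'` either the Tate
conjecture at `ℓ'` is true for all powers of `X`, or the algebraic classes have density zero in the
`ℓ'`-adic Tate classes on the powers of `X`; and the same dichotomy holds for the Hodge conjecture.

In the Lean statement `T` is the cohomology of the complex manifolds with rational coefficients and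
its Hodge decomposition, and `F` is the family of the actions of the Galois group on the `ℓ`-adic
cohomology, which is the cohomology `T.W` with coefficients extended to `ℚ_ℓ` by the comparison
theorem, for a set `F.J` of prime numbers. The power `pw X n` is the product of `n + 1` copies of
`X`. (The definitions are in `Pool/Agent/N132/Lit/Defs.lean` and `Pool/Agent/N132/Lit/TIDefs.lean`.)
-/

open CategoryTheory AlgebraicGeometry

universe u

namespace Pool.Agent.Results.MP_2a05c8_ag.TateIndexAllPrimes

open Pool.Agent.H914 Pool.Agent.H914.VarClass Pool.Agent.H914.VarClass.Obj
  Pool.Agent.H914.WeilCohomology Pool.Agent.Y121.AHS Pool.Agent.N132.Lit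

open Pool.Agent.Y133.Half (pw HasIndex)

variable {k : Type u} [Field k] {𝒱 : VarClass k} {ops : CycleOps 𝒱}

theorem result (T : HodgeTheory ops) (F : GalFamily T.W) (X : 𝒱.Obj) [Nontrivial (T.W.H X)]
    (r : ℕ → ℕ) (hr : ∀ n, r n = cycDim T.W (pw X n)) :
    ∃ (N : ℕ) (H : ℕ∞) (t : F.J → ℕ∞), 1 ≤ N ∧ (H = N ∨ H = ⊤) ∧ (∀ a, t a = N ∨ t a = ⊤) ∧
      HasIndex (fun n => hodgeDim T (pw X n)) r H ∧
      (∀ a, HasIndex (fun n => tateDim F a (pw X n)) r (t a)) ∧
      (∀ a, t a = 1 ↔ ∀ n, HomEqNum T.W (pw X n) ∧
        TateFrom F a (pw X n) (IsCycCl T.W (pw X n))) ∧
      (H ≠ ⊤ → ∀ n, HomEqNum T.W (pw X n) ∧ AllB T.W (pw X n) ∧ HodgeIsTate F (pw X n)) ∧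
      (∀ a, t a ≠ ⊤ → ∀ n, HomEqNum T.W (pw X n) ∧ AllB T.W (pw X n) ∧
        TateFrom F a (pw X n) (IsHodgeTate F (pw X n))) := by
  obtain rfl := funext hr
  exact mainTI T F X

end Pool.Agent.Results.MP_2a05c8_ag.TateIndexAllPrimes
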